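import Pool.Agent.Helper63.TwoPath.Assemble
import Pool.Agent.Helper63.TwoPath.Self2

set_option autoImplicit false

/-!
Additive cubes are avoidable over every alphabet of three integers.
-/

/-- Every set of three integers carries an infinite word without additive cubes. -/
theorem Pool.Agent.Results.MP_bf1c32_co.ThreeLetterAlphabets.result (A : Finset ℤ)
    (hA : A.card = 3) :
    ∃ w : ℕ → ℤ, (∀ n, w n ∈ A) ∧ ∀ p n : ℕ, 0 < n →
      ¬ (∑ i ∈ Finset.range n, w (p + i) = ∑ i ∈ Finset.range n, w (p + n + i) ∧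
        ∑ i ∈ Finset.range n, w (p + n + i) = ∑ i ∈ Finset.range n, w (p + 2 * n + i)) := by
  obtain ⟨v, h1, h2⟩ := Pool.Agent.Helper63.TwoPath.of_card
    Pool.Agent.Helper63.TwoPath.Self2.w_lt
    (fun p n hn => Pool.Agent.Helper63.TwoPath.Self2.w_free p n hn) A hA
  exact ⟨v, h1, h2⟩
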